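import Pool.Agent.R999.Inr.Fin

/-!
# MP_4d7ea7_an, Q1: the capacitary inradius and the Maz'ya–Shubin inradius are comparable
-/

set_option autoImplicit false

open MeasureTheory Set Metric
open scoped ENNReal ContDiff

namespace Pool.Agent.Results.MP_4d7ea7_an.InradiiComparable

/-- `φ ∈ C₀^∞(U)`. -/
def IsTest {N : ℕ} (U : Set (EuclideanSpace ℝ (Fin N))) (φ : EuclideanSpace ℝ (Fin N) → ℝ) : Prop :=
  ContDiff ℝ ∞ φ ∧ HasCompactSupport φ ∧ tsupport φ ⊆ U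

/-- The relative capacity `cap_p(Σ; U)`. -/
noncomputable def relCap {N : ℕ} (p : ℝ) (K U : Set (EuclideanSpace ℝ (Fin N))) : ℝ :=
  sInf {e | ∃ φ : EuclideanSpace ℝ (Fin N) → ℝ, IsTest U φ ∧ (∀ x ∈ K, 1 ≤ φ x) ∧
    e = ∫ x in U, ‖fderiv ℝ φ x‖ ^ p}

/-- The absolute capacity `cap_p(Σ)`. -/
noncomputable def absCap {N : ℕ} (p : ℝ) (K : Set (EuclideanSpace ℝ (Fin N))) : ℝ :=
  sInf {e | ∃ φ : EuclideanSpace ℝ (Fin N) → ℝ, IsTest univ φ ∧ (∀ x ∈ K, 1 ≤ φ x) ∧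
    e = ∫ x, ‖fderiv ℝ φ x‖ ^ p}

/-- The capacitary inradius `R_{p,γ}(Ω)`. -/
noncomputable def inradius {N : ℕ} (p γ : ℝ) (Ω : Set (EuclideanSpace ℝ (Fin N))) : ℝ≥0∞ :=
  sSup {ρ | ∃ r : ℝ, 0 < r ∧ ρ = ENNReal.ofReal r ∧ ∃ x₀,
    relCap p (closedBall x₀ r \ Ω) (ball x₀ (2 * r)) ≤
      γ * relCap p (closedBall x₀ r) (ball x₀ (2 * r))}

/-- The Maz'ya–Shubin capacitary inradius `R^MS_{p,γ}(Ω)`. -/
noncomputable def inradiusMS {N : ℕ} (p γ : ℝ) (Ω : Set (EuclideanSpace ℝ (Fin N))) : ℝ≥0∞ :=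
  sSup {ρ | ∃ r : ℝ, 0 < r ∧ ρ = ENNReal.ofReal r ∧ ∃ x₀,
    absCap p (closedBall x₀ r \ Ω) ≤ γ * absCap p (closedBall x₀ r)}

open Pool.Agent.R999.Inr

lemma relCap_eq {N : ℕ} {p : ℝ} (hp : 0 < p) (K U : Set (EuclideanSpace ℝ (Fin N))) :
    relCap p K U = cap p K U := by
  unfold relCap cap
  congr 1
  ext e
  constructor
  · rintro ⟨φ, ⟨h1, h2, h3⟩, h4, rfl⟩
    refine ⟨φ, ⟨h1, h2, h3⟩, h4, ?_⟩
    unfold En
    refine (setIntegral_eq_integral_of_forall_compl_eq_zero fun x hx => ?_).symm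
    have : fderiv ℝ φ x = 0 := by
      by_contra h
      exact hx (h3 (support_fderiv_subset ℝ (f := φ) h))
    rw [this, norm_zero, Real.zero_rpow hp.ne']
  · rintro ⟨φ, ⟨h1, h2, h3⟩, h4, rfl⟩
    refine ⟨φ, ⟨h1, h2, h3⟩, h4, ?_⟩
    unfold En
    refine (setIntegral_eq_integral_of_forall_compl_eq_zero fun x hx => ?_).symm
    have : fderiv ℝ φ x = 0 := by
      by_contra h
      exact hx (h3 (support_fderiv_subset ℝ (f := φ) h))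
    rw [this, norm_zero, Real.zero_rpow hp.ne']

lemma absCap_eq {N : ℕ} (p : ℝ) (K : Set (EuclideanSpace ℝ (Fin N))) :
    absCap p K = cap p K univ := by
  unfold absCap cap
  congr 1
  ext e
  constructor
  · rintro ⟨φ, ⟨h1, h2, h3⟩, h4, rfl⟩
    exact ⟨φ, ⟨h1, h2, h3⟩, h4, rfl⟩
  · rintro ⟨φ, ⟨h1, h2, h3⟩, h4, rfl⟩
    exact ⟨φ, ⟨h1, h2, h3⟩, h4, rfl⟩

/-- Q1 (positive answer, for all `1 < p < N` and even with two different parameters `γ, γ'`). -/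
theorem result (N : ℕ) (p : ℝ) (hp : 1 < p) (hpN : p < N) (γ γ' : ℝ) (hγ0 : 0 < γ) (hγ1 : γ < 1)
    (hγ'0 : 0 < γ') (hγ'1 : γ' < 1) :
    ∃ c₁ c₂ : ℝ, 0 < c₁ ∧ 0 < c₂ ∧ ∀ Ω : Set (EuclideanSpace ℝ (Fin N)), IsOpen Ω →
      ENNReal.ofReal c₁ * inradiusMS p γ' Ω ≤ inradius p γ Ω ∧
      inradius p γ Ω ≤ ENNReal.ofReal c₂ * inradiusMS p γ' Ω := by
  have hp0 : 0 < p := by linarith
  obtain ⟨κ, hκ, h1⟩ := abs_to_rel hp hpN hγ0 hγ'0 hγ'1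
  obtain ⟨μ, hμ, h2⟩ := rel_to_abs hp hpN hγ0 hγ1 hγ'0
  refine ⟨κ, μ⁻¹, hκ, inv_pos.mpr hμ, fun Ω _ => ⟨?_, ?_⟩⟩
  · unfold inradiusMS
    rw [ENNReal.mul_sSup]
    refine iSup₂_le fun ρ hρ => ?_
    obtain ⟨r, hr, rfl, x₀, hx⟩ := hρ
    simp_rw [absCap_eq] at hx
    obtain ⟨x₁, hx₁⟩ := h1 Ω x₀ r hr hx
    refine le_sSup ⟨κ * r, by positivity, (ENNReal.ofReal_mul hκ.le).symm, x₁, ?_⟩
    simpa only [relCap_eq hp0] using hx₁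
  · refine sSup_le ?_
    rintro ρ ⟨r, hr, rfl, x₀, hx⟩
    simp_rw [relCap_eq hp0] at hx
    obtain ⟨x₁, hx₁⟩ := h2 Ω x₀ r hr hx
    have h3 : ENNReal.ofReal (μ * r) ≤ inradiusMS p γ' Ω := by
      refine le_sSup ⟨μ * r, by positivity, rfl, x₁, ?_⟩
      simpa only [absCap_eq] using hx₁
    calc ENNReal.ofReal r = ENNReal.ofReal μ⁻¹ * ENNReal.ofReal (μ * r) := by
          rw [← ENNReal.ofReal_mul (by positivity)]
          congr 1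
          field_simp
      _ ≤ _ := by gcongr

end Pool.Agent.Results.MP_4d7ea7_an.InradiiComparable
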